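import Pool.Agent.TH317.CC.Asm4

/-!
# Contracting a curve whose multiple contracts through short curves

If the closed curve `m γ` on an orientable Riemannian surface can be contracted through closed
curves of length `< L`, then so can `γ`.

The proof (see `Pool/Agent/TH317/CC/PROOF.md`): it suffices to treat a prime `m = p`. For closed
walks on a fine graph of the surface, the iterated cut operator `K X (p - 1)` associated with a
function `X` on the classes of closed walks of length `< L` under deformations through closed walks
of length `< L` is, in characteristic `p`, invariant under deformations through closed walks of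
length `< L`, and its value on the `p`-th multiple of a walk `u` is `(X u) ^ p`.
-/

set_option autoImplicit false

universe u

namespace Pool.Agent.Results.MP_86dbc7_gt.ContractMultiple

open Manifold Bundle
open scoped ContDiff

/-- the length of a closed curve: the supremum, over the subdivisions of `[0, 1]`, of the sums of
the distances of consecutive points -/
noncomputable def curveLength {M : Type u} [PseudoEMetricSpace M] (γ : UnitAddCircle → M) :
    ENNReal :=
  eVariationOn (fun t : ℝ => γ (t : UnitAddCircle)) (Set.Icc 0 1)

/-- the closed curve which runs `m` times along `γ` -/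
def multiple {M : Type u} [TopologicalSpace M] (m : ℕ) (γ : C(UnitAddCircle, M)) :
    C(UnitAddCircle, M) :=
  ⟨fun x => γ (m • x), γ.continuous.comp (continuous_const_smul m)⟩

/-- `γ` can be contracted through curves of length less than `L` -/
def ContractsBelow {M : Type u} [PseudoEMetricSpace M] (γ : C(UnitAddCircle, M)) (L : ℝ) : Prop :=
  ∃ H : C(unitInterval × UnitAddCircle, M), (∀ x, H (0, x) = γ x) ∧ (∃ c, ∀ x, H (1, x) = c) ∧
    ∀ t, curveLength (fun x => H (t, x)) < ENNReal.ofReal L

/-- orientability of a smooth manifold `M`, modelled on the normed space `E`: some of its smooth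
charts cover it and have transition maps with positive Jacobian determinant -/
def Orientable (E : Type) [NormedAddCommGroup E] [NormedSpace ℝ E] (M : Type u)
    [TopologicalSpace M] [ChartedSpace E M] : Prop :=
  ∃ A ⊆ IsManifold.maximalAtlas 𝓘(ℝ, E) ∞ M, (∀ x, ∃ e ∈ A, x ∈ e.source) ∧
    ∀ e ∈ A, ∀ e' ∈ A, ∀ p ∈ (e.symm.trans e').source, 0 < (fderiv ℝ (e.symm.trans e') p).det

/-- Let `M` be an orientable Riemannian surface (smooth, modelled on a two-dimensional normed space
`E`, with its Riemannian distance), let `γ` be a closed curve on `M` and `m ≥ 1`. If `m γ` can be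
contracted through curves of length less than `L`, then so can `γ`. -/
theorem result (E : Type) [NormedAddCommGroup E] [NormedSpace ℝ E]
    (hE : Module.finrank ℝ E = 2) (M : Type u) [EMetricSpace M] [ChartedSpace E M]
    [IsManifold 𝓘(ℝ, E) ∞ M] [RiemannianBundle (fun x : M => TangentSpace 𝓘(ℝ, E) x)]
    [IsContMDiffRiemannianBundle 𝓘(ℝ, E) ∞ E (fun x : M => TangentSpace 𝓘(ℝ, E) x)]
    [IsRiemannianManifold 𝓘(ℝ, E) M] (hM : Orientable E M) (γ : C(UnitAddCircle, M)) (m : ℕ)
    (hm : 1 ≤ m) (L : ℝ) (h : ContractsBelow (multiple m γ) L) : ContractsBelow γ L := by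
  have : FiniteDimensional ℝ E := Module.finite_of_finrank_pos (by rw [hE]; norm_num)
  obtain ⟨A, h1, h2, h3⟩ := hM
  exact Pool.Agent.TH317.CC.main_riem hE A h1 h2 h3 m hm γ L h

end Pool.Agent.Results.MP_86dbc7_gt.ContractMultiple
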